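import Pool.Agent.H13.DEV.Targets

/-!
# The other places
-/

set_option autoImplicit false

open Polynomial NumberField IsDedekindDomain Pool.Agent.H32.QC Pool.Agent.H34.N6
  Pool.Agent.H13.DEV

namespace Pool.Agent.H32.N6E

section ultra

variable {F : Type} [NormedField F] [IsUltrametricDist F]

theorem norm_add_one {a b : F} (ha : ‖a‖ = 1) (hb : ‖b‖ < 1) : ‖a + b‖ = 1 := by
  rw [IsUltrametricDist.norm_add_eq_max_of_norm_ne_norm (by rw [ha]; exact hb.ne'), ha,
    max_eq_left hb.le]

theorem norm_sub_one {a b : F} (ha : ‖a‖ = 1) (hb : ‖b‖ < 1) : ‖a - b‖ = 1 := by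
  rw [sub_eq_add_neg]
  exact norm_add_one ha (by rw [norm_neg]; exact hb)

theorem norm_sub_le' {a b : F} {c : ℝ} (ha : ‖a‖ ≤ c) (hb : ‖b‖ ≤ c) : ‖a - b‖ ≤ c := by
  rw [sub_eq_add_neg]
  refine (IsUltrametricDist.norm_add_le_max a (-b)).trans (max_le ha ?_)
  rw [norm_neg]
  exact hb

theorem far_aux (hHEN : T_HEN) [CompleteSpace F] (δ x y : F) (h2 : ‖(2 : F)‖ = 1)
    (hδ : ‖δ‖ = 1) (hx : ‖x‖ ≤ 1) (hy : ‖y‖ ≤ 1) (hxy : ‖x‖ < 1 → ‖y‖ = 1)
    (hs : ¬ IsSquare δ) : ‖x ^ 2 - δ * y ^ 2‖ = 1 := by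
  rcases hx.lt_or_eq with hx1 | hx1
  · have hy1 := hxy hx1
    rw [norm_sub_rev]
    apply norm_sub_one
    · rw [norm_mul, norm_pow, hδ, hy1]
      norm_num
    · rw [norm_pow]
      exact pow_lt_one₀ (norm_nonneg _) hx1 two_ne_zero
  · rcases hy.lt_or_eq with hy1 | hy1
    · apply norm_sub_one
      · rw [norm_pow, hx1]
        norm_num
      · rw [norm_mul, norm_pow, hδ, one_mul]
        exact pow_lt_one₀ (norm_nonneg _) hy1 two_ne_zero
    · by_contra hne
      have hle : ‖x ^ 2 - δ * y ^ 2‖ ≤ 1 := by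
        apply norm_sub_le'
        · rw [norm_pow, hx1, one_pow]
        · rw [norm_mul, norm_pow, hδ, hy1, one_pow, one_mul]
      have hlt : ‖x ^ 2 - δ * y ^ 2‖ < 1 := lt_of_le_of_ne hle hne
      have hy0 : y ≠ 0 := by
        intro h
        rw [h, norm_zero] at hy1
        exact zero_ne_one hy1
      have ha : ‖x / y‖ = 1 := by
        rw [norm_div, hx1, hy1, div_one]
      obtain ⟨b, hb, -, -⟩ := hHEN F (X ^ 2 - C δ) (x / y) (by
        intro i
        rw [coeff_sub, coeff_X_pow, coeff_C]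
        apply norm_sub_le'
        · split_ifs
          · rw [norm_one]
          · rw [norm_zero]
            exact zero_le_one
        · split_ifs
          · exact hδ.le
          · rw [norm_zero]
            exact zero_le_one) ha.le (by
        have h1 : eval (x / y) (X ^ 2 - C δ) = (x ^ 2 - δ * y ^ 2) / y ^ 2 := by
          simp only [eval_sub, eval_pow, eval_X, eval_C]
          field_simp
        rw [h1, norm_div, norm_pow y, hy1, one_pow, div_one]
        exact hlt) (by
        have h1 : eval (x / y) (derivative (X ^ 2 - C δ)) = 2 * (x / y) := by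
          rw [derivative_sub, derivative_C, sub_zero, derivative_X_pow]
          norm_num
        rw [h1, norm_mul, h2, ha, one_mul])
      apply hs
      simp only [eval_sub, eval_pow, eval_X, eval_C] at hb
      refine ⟨b, ?_⟩
      rw [← sub_eq_zero]
      linear_combination -hb

end ultra

theorem pf_FAR (hHEN : T_HEN) : T_FAR := by
  intro L _ _ w δ x y h2 hδ hx hy hxy hs
  exact far_aux hHEN δ x y h2 hδ hx hy hxy hs

end Pool.Agent.H32.N6E
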