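import Pool.Agent.H13.DEV.Targets
import Pool.Agent.H32.N6E.EFAR

/-!
# The polynomial at the auxiliary place
-/

set_option autoImplicit false
set_option linter.unusedSectionVars false

open Polynomial NumberField IsDedekindDomain Pool.Agent.H32.QC Pool.Agent.H34.N6
  Pool.Agent.H13.DEV

namespace Pool.Agent.H32.N6E

section ultra

variable {F : Type} [NormedField F] [IsUltrametricDist F]

theorem norm_add_le' {a b : F} {c : ℝ} (ha : ‖a‖ ≤ c) (hb : ‖b‖ ≤ c) : ‖a + b‖ ≤ c :=
  (IsUltrametricDist.norm_add_le_max a b).trans (max_le ha hb)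

theorem norm_add_lt {a b : F} {c : ℝ} (ha : ‖a‖ < c) (hb : ‖b‖ < c) : ‖a + b‖ < c :=
  (IsUltrametricDist.norm_add_le_max a b).trans_lt (max_lt ha hb)

/-- integral coefficients -/
def IP (Q : F[X]) : Prop := ∀ i, ‖Q.coeff i‖ ≤ 1

theorem norm_sum_le {ι : Type} (s : Finset ι) (f : ι → F) {c : ℝ} (hc : 0 ≤ c)
    (h : ∀ i ∈ s, ‖f i‖ ≤ c) : ‖∑ i ∈ s, f i‖ ≤ c := by
  classical
  induction s using Finset.induction_on with
  | empty =>
    rw [Finset.sum_empty, norm_zero]
    exact hc
  | insert a s ha ih =>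
    rw [Finset.sum_insert ha]
    exact norm_add_le' (h a (Finset.mem_insert_self _ _))
      (ih fun i hi => h i (Finset.mem_insert_of_mem hi))

theorem IP.mul {P Q : F[X]} (hP : IP P) (hQ : IP Q) : IP (P * Q) := by
  intro i
  rw [coeff_mul]
  apply norm_sum_le _ _ zero_le_one
  intro p _
  rw [norm_mul]
  exact mul_le_one₀ (hP _) (norm_nonneg _) (hQ _)

theorem IP.one : IP (1 : F[X]) := by
  intro i
  rw [coeff_one]
  split_ifs
  · rw [norm_one]
  · rw [norm_zero]
    exact zero_le_one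

theorem IP.pow {P : F[X]} (hP : IP P) (n : ℕ) : IP (P ^ n) := by
  induction n with
  | zero =>
    rw [pow_zero]
    exact IP.one
  | succ n ih =>
    rw [pow_succ]
    exact ih.mul hP

theorem IP.add {P Q : F[X]} (hP : IP P) (hQ : IP Q) : IP (P + Q) := by
  intro i
  rw [coeff_add]
  exact norm_add_le' (hP i) (hQ i)

theorem IP.C {a : F} (ha : ‖a‖ ≤ 1) : IP (C a) := by
  intro i
  rw [coeff_C]
  split_ifs
  · exact ha
  · rw [norm_zero]
    exact zero_le_one

theorem IP.X : IP (X : F[X]) := by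
  intro i
  rw [coeff_X]
  split_ifs
  · rw [norm_one]
  · rw [norm_zero]
    exact zero_le_one

theorem IP.eval_le {Q : F[X]} (hQ : IP Q) {x : F} (hx : ‖x‖ ≤ 1) : ‖eval x Q‖ ≤ 1 := by
  rw [eval_eq_sum_range]
  apply norm_sum_le _ _ zero_le_one
  intro i _
  rw [norm_mul, norm_pow]
  exact mul_le_one₀ (hQ _) (pow_nonneg (norm_nonneg _) _) (pow_le_one₀ (norm_nonneg _) hx)

theorem pow_sub_le {x y : F} (hx : ‖x‖ ≤ 1) (hy : ‖y‖ ≤ 1) (n : ℕ) :
    ‖x ^ n - y ^ n‖ ≤ ‖x - y‖ := by
  induction n with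
  | zero =>
    rw [pow_zero, pow_zero, sub_self, norm_zero]
    exact norm_nonneg _
  | succ n ih =>
    have h1 : x ^ (n + 1) - y ^ (n + 1) = x * (x ^ n - y ^ n) + (x - y) * y ^ n := by ring
    rw [h1]
    apply norm_add_le'
    · rw [norm_mul]
      calc ‖x‖ * ‖x ^ n - y ^ n‖ ≤ 1 * ‖x - y‖ :=
            mul_le_mul hx ih (norm_nonneg _) zero_le_one
        _ = ‖x - y‖ := one_mul _
    · rw [norm_mul, norm_pow]
      calc ‖x - y‖ * ‖y‖ ^ n ≤ ‖x - y‖ * 1 :=
            mul_le_mul_of_nonneg_left (pow_le_one₀ (norm_nonneg _) hy) (norm_nonneg _)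
        _ = ‖x - y‖ := mul_one _

theorem IP.eval_sub_le {Q : F[X]} (hQ : IP Q) {x y : F} (hx : ‖x‖ ≤ 1) (hy : ‖y‖ ≤ 1) :
    ‖eval x Q - eval y Q‖ ≤ ‖x - y‖ := by
  rw [eval_eq_sum_range, eval_eq_sum_range, ← Finset.sum_sub_distrib]
  apply norm_sum_le _ _ (norm_nonneg _)
  intro i _
  rw [← mul_sub, norm_mul]
  calc ‖Q.coeff i‖ * ‖x ^ i - y ^ i‖ ≤ 1 * ‖x - y‖ :=
        mul_le_mul (hQ i) (pow_sub_le hx hy i) (norm_nonneg _) zero_le_one
    _ = ‖x - y‖ := one_mul _

/-- a root of a monic integral polynomial is integral -/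
theorem IP.root_le {Q : F[X]} (hQ : IP Q) (hm : Q.Monic) {x : F} (hx : eval x Q = 0) :
    ‖x‖ ≤ 1 := by
  by_contra hcon
  push Not at hcon
  have h1 := hm.as_sum
  have h2 : eval x Q = x ^ Q.natDegree + ∑ i ∈ Finset.range Q.natDegree, Q.coeff i * x ^ i := by
    conv_lhs => rw [h1]
    rw [eval_add, eval_pow, eval_X, eval_finsetSum]
    congr 1
    refine Finset.sum_congr rfl fun i _ => ?_
    rw [eval_mul, eval_C, eval_pow, eval_X]
  rw [hx] at h2
  have h3 : x ^ Q.natDegree = -∑ i ∈ Finset.range Q.natDegree, Q.coeff i * x ^ i := by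
    linear_combination -h2
  by_cases hn : Q.natDegree = 0
  · have h4 : Q = 1 := by
      apply eq_one_of_monic_natDegree_zero hm hn
    rw [h4, eval_one] at hx
    exact one_ne_zero hx
  · have h5 : ‖x ^ Q.natDegree‖ ≤ ‖x‖ ^ (Q.natDegree - 1) := by
      rw [h3, norm_neg]
      apply norm_sum_le _ _ (pow_nonneg (norm_nonneg _) _)
      intro i hi
      rw [norm_mul, norm_pow]
      calc ‖Q.coeff i‖ * ‖x‖ ^ i ≤ 1 * ‖x‖ ^ (Q.natDegree - 1) := by
            apply mul_le_mul (hQ i) _ (pow_nonneg (norm_nonneg _) _) zero_le_one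
            apply pow_le_pow_right₀ hcon.le
            have := Finset.mem_range.1 hi
            omega
        _ = ‖x‖ ^ (Q.natDegree - 1) := one_mul _
    rw [norm_pow] at h5
    have h6 : ‖x‖ ^ (Q.natDegree - 1) < ‖x‖ ^ Q.natDegree := by
      apply pow_lt_pow_right₀ hcon
      omega
    linarith

/-- the local statement: the derivative and the value of `A (X - c) ^ m + p` -/
theorem der_aux {A : F[X]} {x c : F} (m : ℕ)
    (hA : ‖eval x A‖ < 1) (hA' : ‖eval x (derivative A)‖ = 1) (hxc : ‖x - c‖ = 1) (q : F) :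
    ‖eval x (derivative (A * (X - C c) ^ m + C q))‖ = 1 := by
  have h1 : eval x (derivative (A * (X - C c) ^ m + C q)) =
      eval x (derivative A) * (x - c) ^ m + eval x A * ((m : F) * (x - c) ^ (m - 1)) := by
    simp only [derivative_add, derivative_mul, derivative_pow, derivative_sub, derivative_X,
      derivative_C, sub_zero, mul_one, add_zero, eval_add, eval_mul, eval_pow, eval_sub, eval_X,
      eval_C]
  rw [h1]
  apply norm_add_one
  · rw [norm_mul, norm_pow, hA', hxc, one_pow, mul_one]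
  · rw [norm_mul, norm_mul, norm_pow, hxc, one_pow, mul_one]
    calc ‖eval x A‖ * ‖(m : F)‖ ≤ ‖eval x A‖ * 1 :=
          mul_le_mul_of_nonneg_left (IsUltrametricDist.norm_natCast_le_one F m) (norm_nonneg _)
      _ < 1 := by
          rw [mul_one]
          exact hA

end ultra

theorem int_iff {k : Type} [Field k] [NumberField k] (v : FPl k) (Q : k[X]) :
    Int v Q ↔ IP (Q.map (ic v)) := by
  constructor
  · intro h i
    rw [coeff_map]
    exact h i
  · intro h i
    have := h i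
    rw [coeff_map] at this
    exact this

theorem ic_aeval {k L : Type} [Field k] [NumberField k] [Field L] [NumberField L] [Algebra k L]
    (w : FPl L) (e : L) (Q : k[X]) :
    ic w (aeval e Q) = eval (ic w e) (Q.map (kc k w)) := by
  rw [aeval_def, hom_eval₂, eval_map]

theorem ip_kc {k L : Type} [Field k] [NumberField k] [Field L] [NumberField L] [Algebra k L]
    (hBEL : T_BEL) (w : FPl L) {Q : k[X]} (hQ : Int (w.under (𝓞 k)) Q) :
    IP (Q.map (kc k w)) := by
  intro i
  rw [coeff_map]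
  exact (((hBEL k L w).1 (Q.coeff i)).1).2 (hQ i)

/-- a uniformizer of `k` at `v` -/
theorem exists_unif {k : Type} [Field k] [NumberField k] (v : FPl k) :
    ∃ π : k, ‖ic v π‖ < 1 ∧ ∀ x : k, ‖ic v x‖ < 1 → ‖ic v x‖ ≤ ‖ic v π‖ := by
  obtain ⟨π, hπ⟩ := v.valuation_exists_uniformizer k
  have hval : ∀ x : k, Valued.v (ic v x) = v.valuation k x := fun x =>
    HeightOneSpectrum.valuedAdicCompletion_eq_valuation' v x
  have hlt : ∀ x : k, ‖ic v x‖ < 1 ↔ v.valuation k x < 1 := by
    intro x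
    rw [← hval x]
    exact Valued.toNormedField.norm_lt_one_iff
  refine ⟨π, ?_, ?_⟩
  · rw [hlt, hπ, ← WithZero.exp_zero, WithZero.exp_lt_exp]
    norm_num
  · intro x hx
    rw [hlt] at hx
    have h1 : Valued.v (ic v x) ≤ Valued.v (ic v π) := by
      rw [hval, hval, hπ]
      by_cases h0 : v.valuation k x = 0
      · rw [h0]
        exact zero_le
      · have h2 : v.valuation k x = WithZero.exp (WithZero.log (v.valuation k x)) :=
          (WithZero.exp_log h0).symm
        rw [h2, ← WithZero.exp_zero, WithZero.exp_lt_exp] at hx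
        rw [h2, WithZero.exp_le_exp]
        omega
    exact Valued.toNormedField.norm_le_iff.2 h1

theorem pf_GST (hFAC : T_FAC) (hBEL : T_BEL) : T_GST := by
  intro k L _ _ _ _ _ P D e ws N c hPm hGen hgood hN hc hPc
  obtain ⟨A, hAm, hAI, hAd, hAlt, hAder, hAoth, hAmx⟩ := hFAC k L P D e ws hPm hGen hgood
  obtain ⟨π, hπ, hπmx⟩ := exists_unif (ws.under (𝓞 k))
  have hmx := hAmx π hπ hπmx
  have hPe : aeval e P = 0 := by
    rw [← hGen.mp]
    exact minpoly.aeval k e
  -- integrality at the places above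
  have hea : ∀ w : FPl L, w.under (𝓞 k) = ws.under (𝓞 k) → ‖ic w e‖ ≤ 1 ∧ ‖kc k w c‖ ≤ 1 ∧
      ‖ic w e - kc k w c‖ = 1 ∧ ‖kc k w π‖ < 1 := by
    intro w hw
    have hPI : IP (P.map (kc k w)) := ip_kc hBEL w (by rw [hw]; exact hgood.intP)
    have h1 : eval (ic w e) (P.map (kc k w)) = 0 := by
      rw [← ic_aeval, hPe, map_zero]
    have h2 : ‖ic w e‖ ≤ 1 := hPI.root_le (hPm.map _) h1
    have h3 : ‖kc k w c‖ ≤ 1 := (((hBEL k L w).1 c).1).2 (by rw [hw]; exact hc)
    have h4 : ‖kc k w (eval c P)‖ = 1 := by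
      apply le_antisymm
      · exact (((hBEL k L w).1 (eval c P)).1).2 (by rw [hw]; exact hPc.le)
      · by_contra hcon
        push Not at hcon
        have := (((hBEL k L w).1 (eval c P)).2).1 hcon
        rw [hw, hPc] at this
        exact lt_irrefl _ this
    have h5 : kc k w (eval c P) = eval (kc k w c) (P.map (kc k w)) := by
      rw [eval_map, eval₂_hom]
    refine ⟨h2, h3, ?_, (((hBEL k L w).1 π).2).2 (by rw [hw]; exact hπ)⟩
    apply le_antisymm (norm_sub_le' h2 h3)
    have h6 := hPI.eval_sub_le h3 h2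
    rw [h1, sub_zero, ← h5, h4, norm_sub_rev] at h6
    exact h6
  obtain ⟨hes, hcs, hecs, hπs⟩ := hea ws rfl
  set m := N - A.natDegree with hm
  set G₁ := A * (X - C c) ^ m with hG₁
  have hG₁m : G₁.Monic := hAm.mul ((monic_X_sub_C c).pow m)
  have hG₁d : G₁.natDegree = N := by
    rw [hG₁, hAm.natDegree_mul ((monic_X_sub_C c).pow m), natDegree_pow, natDegree_X_sub_C]
    omega
  have hG₁I : ∀ q : k, ‖ic (ws.under (𝓞 k)) q‖ ≤ 1 → Int (ws.under (𝓞 k)) (G₁ + C q) := by
    intro q hq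
    rw [int_iff, Polynomial.map_add, hG₁, Polynomial.map_mul, Polynomial.map_pow,
      Polynomial.map_sub, map_X, map_C, map_C]
    refine IP.add (IP.mul ((int_iff _ _).1 hAI) (IP.pow ?_ _)) (IP.C hq)
    rw [sub_eq_add_neg, ← C_neg]
    exact IP.add IP.X (IP.C (by rw [norm_neg]; exact hc))
  have hval : ∀ (w : FPl L) (q : k), ic w (aeval e (G₁ + C q)) =
      ic w (aeval e A) * (ic w e - kc k w c) ^ m + kc k w q := by
    intro w q
    rw [ic_aeval, ic_aeval, hG₁]
    simp only [Polynomial.map_add, Polynomial.map_mul, Polynomial.map_pow, Polynomial.map_sub,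
      map_X, map_C, eval_add, eval_mul, eval_pow, eval_sub, eval_X, eval_C]
  have hder : ∀ q : k, ‖ic ws (aeval e (derivative (G₁ + C q)))‖ = 1 := by
    intro q
    have h1 : ic ws (aeval e (derivative (G₁ + C q))) =
        eval (ic ws e) (derivative (A.map (kc k ws) * (X - C (kc k ws c)) ^ m + C (kc k ws q))) := by
      rw [ic_aeval, hG₁, ← derivative_map]
      simp only [Polynomial.map_add, Polynomial.map_mul, Polynomial.map_pow, Polynomial.map_sub,
        map_X, map_C]
    rw [h1]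
    apply der_aux m _ _ hecs
    · rw [← ic_aeval]
      exact hAlt
    · rw [derivative_map, ← ic_aeval]
      exact hAder
  have hoth : ∀ q : k, (∀ w : FPl L, w.under (𝓞 k) = ws.under (𝓞 k) → ‖kc k w q‖ < 1) →
      ∀ w : FPl L, w.under (𝓞 k) = ws.under (𝓞 k) → w ≠ ws →
        ‖ic w (aeval e (G₁ + C q))‖ = 1 := by
    intro q hq w hw hne
    rw [hval]
    apply norm_add_one _ (hq w hw)
    rw [norm_mul, norm_pow, hAoth w hw hne, (hea w hw).2.2.1, one_pow, one_mul]
  have hG₁v : ic ws (aeval e G₁) = ic ws (aeval e A) * (ic ws e - kc k ws c) ^ m := by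
    have := hval ws 0
    rw [C_0, add_zero, map_zero, add_zero] at this
    exact this
  have hG₁lt : ‖ic ws (aeval e G₁)‖ < 1 := by
    rw [hG₁v, norm_mul, norm_pow, hecs, one_pow, mul_one]
    exact hAlt
  by_cases hmax : ∀ x : ws.adicCompletion L, ‖x‖ < 1 → ‖x‖ ≤ ‖ic ws (aeval e G₁)‖
  · refine ⟨G₁, hG₁m, hG₁d, ?_, hG₁lt, hmax, ?_, ?_⟩
    · have := hG₁I 0 (by rw [map_zero, norm_zero]; exact zero_le_one)
      rw [C_0, add_zero] at this
      exact this
    · have := hder 0
      rw [C_0, add_zero] at this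
      exact this
    · have := hoth 0 (fun w _ => by rw [map_zero, norm_zero]; exact zero_lt_one)
      rw [C_0, add_zero] at this
      exact this
  · push Not at hmax
    obtain ⟨x, hx1, hx2⟩ := hmax
    have h1 : ‖ic ws (aeval e G₁)‖ < ‖kc k ws π‖ := hx2.trans_le (hmx x hx1)
    have h2 : ‖ic ws (aeval e (G₁ + C π))‖ = ‖kc k ws π‖ := by
      rw [hval, ← hG₁v, IsUltrametricDist.norm_add_eq_max_of_norm_ne_norm h1.ne,
        max_eq_right h1.le]
    have hN1 : 0 < N := by
      by_contra hcon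
      have h3 : G₁.natDegree = 0 := by omega
      have h4 : G₁ = 1 := eq_one_of_monic_natDegree_zero hG₁m h3
      rw [h4, map_one, map_one, norm_one] at hG₁lt
      exact lt_irrefl _ hG₁lt
    refine ⟨G₁ + C π, ?_, ?_, hG₁I π hπ.le, ?_, ?_, hder π,
      hoth π fun w hw => (hea w hw).2.2.2⟩
    · apply hG₁m.add_of_left
      rw [degree_eq_natDegree hG₁m.ne_zero, hG₁d]
      refine degree_C_le.trans_lt ?_
      exact_mod_cast hN1
    · rw [natDegree_add_C]
      exact hG₁d
    · rw [h2]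
      exact hπs
    · intro y hy
      rw [h2]
      exact hmx y hy

end Pool.Agent.H32.N6E
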