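import Pool.Agent.H13.DEV.Targets
import Pool.Agent.H32.QCL.TER
import Pool.Agent.H23.QCF.All

/-!
# The factor `κ`
-/

set_option autoImplicit false

open Polynomial NumberField IsDedekindDomain Pool.Agent.H32.QC Pool.Agent.H34.N6
  Pool.Agent.H13.DEV

namespace Pool.Agent.H32.N6E

theorem norm_rep {F : Type} [Field F] (h2 : (2 : F) ≠ 0) {d m : F} (hd : d ≠ 0)
    (h : Sol m d) : ∃ x y : F, m = x ^ 2 - d * y ^ 2 := by
  by_cases hs : IsSquare d
  · exact Pool.Agent.H32.QCL.rep_sq h2 hd hs m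
  · exact (Pool.Agent.H32.QCL.sol_iff hs m).1 ((Pool.Agent.H32.QCL.sol_comm m d).1 h)

theorem kap_field {F : Type} [Field F] (h2 : (2 : F) ≠ 0) {κ g d : F} (hκ : κ ≠ 0) (hg : g ≠ 0)
    (hd : d ≠ 0) (h : Sol (κ * g) d) : ∃ x y : F, κ * (x ^ 2 - d * y ^ 2) = g := by
  obtain ⟨x, y, hxy⟩ := norm_rep h2 hd h
  refine ⟨x / κ, y / κ, ?_⟩
  field_simp
  linear_combination -hxy

theorem hs_pm {L : Type} [Field L] [NumberField L] (w : Pl L) (a b : L) :
    hs w a b = 1 ∨ hs w a b = -1 := by
  cases w with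
  | inl v =>
    show hil _ _ = 1 ∨ hil _ _ = -1
    unfold hil
    split_ifs
    · exact Or.inl rfl
    · exact Or.inr rfl
  | inr φ =>
    show hil _ _ = 1 ∨ hil _ _ = -1
    unfold hil
    split_ifs
    · exact Or.inl rfl
    · exact Or.inr rfl

theorem pf_KAP : T_KAP := by
  classical
  intro L _ _ δ A g hδ hout hg hprod
  set e : Pl L → ℤ := fun w => if w ∈ A then hs w (g w) δ else 1 with he
  have hpm : ∀ w, e w = 1 ∨ e w = -1 := by
    intro w
    by_cases hw : w ∈ A
    · rw [he]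
      simp only [if_pos hw]
      exact hs_pm w _ _
    · left
      rw [he]
      simp only [if_neg hw]
  have hsub : {w | e w ≠ 1} ⊆ (A : Set (Pl L)) := by
    intro w hw
    by_contra hc
    apply hw
    have h1 : w ∉ A := fun h => hc (Finset.mem_coe.2 h)
    rw [he]
    simp only [if_neg h1]
  have hfp : ∏ᶠ w, e w = 1 := by
    rw [finprod_eq_prod_of_mulSupport_subset e (s := A) hsub, ← hprod]
    refine Finset.prod_congr rfl fun w hw => ?_
    rw [he]
    simp only [if_pos hw]
  have hsq : ∀ w, e w = -1 → ¬ sqAt w δ := by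
    intro w hw hs1
    by_cases hwA : w ∈ A
    · have h1 : e w = hs w (g w) δ := by
        rw [he]
        simp only [if_pos hwA]
      rw [h1, Pool.Agent.H23.QCF.All.hsq L w (g w) δ hs1] at hw
      norm_num at hw
    · have h1 : e w = 1 := by
        rw [he]
        simp only [if_neg hwA]
      rw [h1] at hw
      norm_num at hw
  obtain ⟨κ, hκ, hκe⟩ := Pool.Agent.H23.QCF.All.prescribed L δ e hδ hpm
    (A.finite_toSet.subset hsub) hfp hsq
  refine ⟨κ, hκ, ?_, ?_⟩
  · intro w hw
    have h1 : hs w (κ * g w) δ = 1 := by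
      rw [Pool.Agent.H23.QCF.All.hmul L w κ (g w) δ hκ (hg w hw) hδ,
        Pool.Agent.H23.QCF.All.hsym L w κ δ, hκe w]
      have h3 : e w = hs w (g w) δ := by
        rw [he]
        simp only [if_pos hw]
      rw [h3]
      rcases hs_pm w (g w) δ with h | h
      · rw [h]
        norm_num
      · rw [h]
        norm_num
    have hgw := hg w hw
    cases w with
    | inl v =>
      have h4 : Sol (ic v (κ * g (Sum.inl v))) (ic v δ) := Pool.Agent.H32.QCL.hil_eq_one.1 h1
      rw [map_mul] at h4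
      have h2 : (2 : v.adicCompletion L) ≠ 0 := by
        have h5 : ic v 2 ≠ 0 := (map_ne_zero (ic v)).2 two_ne_zero
        rw [map_ofNat] at h5
        exact h5
      exact kap_field h2 ((map_ne_zero (ic v)).2 hκ) ((map_ne_zero (ic v)).2 hgw)
        ((map_ne_zero (ic v)).2 hδ) h4
    | inr φ =>
      have h4 : Sol (φ (κ * g (Sum.inr φ))) (φ δ) := Pool.Agent.H32.QCL.hil_eq_one.1 h1
      rw [map_mul] at h4
      exact kap_field two_ne_zero ((map_ne_zero φ).2 hκ) ((map_ne_zero φ).2 hgw)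
        ((map_ne_zero φ).2 hδ) h4
  · intro w hwA hns
    obtain ⟨h2, h3⟩ := hout w hwA
    have hv : w.valuation L κ ≠ 0 := (w.valuation L).ne_zero_iff.2 hκ
    obtain ⟨n, hn⟩ : ∃ n : ℤ, w.valuation L κ = WithZero.exp n :=
      ⟨WithZero.log (w.valuation L κ), (WithZero.exp_log hv).symm⟩
    rcases Int.even_or_odd n with h | h
    · obtain ⟨m, hm⟩ := h
      refine ⟨m, ?_⟩
      rw [hn, hm]
      congr 1
      ring
    · exfalso
      have h4 := Pool.Agent.H23.QCF.All.unr L w κ δ n 0 h2 hn (by rw [h3, WithZero.exp_zero]) h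
        (by simp) hns
      have h5 : hs (Sum.inl w) κ δ = 1 := by
        rw [Pool.Agent.H23.QCF.All.hsym L (Sum.inl w) κ δ, hκe (Sum.inl w), he]
        simp only [if_neg hwA]
      rw [h5] at h4
      norm_num at h4

end Pool.Agent.H32.N6E
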